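import Pool.Agent.H64.CB.Targets
import Pool.Agent.H97.QC.NW

/-!
MP_fd35e1_ag, board cb_modules, row RAT.
-/

set_option autoImplicit false

open Matrix Pool.Agent.H64.CB

namespace Pool.Agent.H14.CB

theorem pf_RAT : T_RAT := by
  intro K _ _ m x htr
  have hc : ∀ n, x.charpoly.coeff n ∈ (algebraMap ℚ K).range := by
    intro n
    refine Pool.Agent.H97.QC.charpoly_mem (algebraMap ℚ K).range ?_ x ?_ n
    · rintro k a hk ⟨q, hq⟩
      refine ⟨q / k, ?_⟩
      have hk' : (k : K) ≠ 0 := Nat.cast_ne_zero.2 hk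
      rw [map_div₀, hq, map_natCast, mul_div_cancel_left₀ _ hk']
    · intro k hk
      obtain ⟨l, rfl⟩ : ∃ l, k = l + 1 := ⟨k - 1, by omega⟩
      obtain ⟨q, hq⟩ := htr l
      exact ⟨q, by rw [hq]; simp⟩
  obtain ⟨P, hP⟩ : ∃ P : Polynomial ℚ, P.map (algebraMap ℚ K) = x.charpoly := by
    have h := (Polynomial.lifts_iff_coeff_lifts (f := algebraMap ℚ K) x.charpoly).2 fun n => hc n
    rwa [Polynomial.mem_lifts] at h
  have hP0 : P ≠ 0 := by
    rintro rfl
    rw [Polynomial.map_zero] at hP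
    exact x.charpoly_monic.ne_zero hP.symm
  have hPx : Polynomial.aeval x P = 0 := by
    have h := x.aeval_self_charpoly
    rw [← hP, Polynomial.aeval_map_algebraMap] at h
    exact h
  obtain ⟨Q, hQ, hd⟩ := Polynomial.exists_eq_pow_rootMultiplicity_mul_and_not_dvd P hP0 0
  rw [Polynomial.C_0, sub_zero] at hQ hd
  have hcop : IsCoprime (Polynomial.X : Polynomial ℚ) Q :=
    ((Polynomial.irreducible_X).coprime_iff_not_dvd).2 hd
  obtain ⟨u, v, huv⟩ := hcop
  refine ⟨u, P.rootMultiplicity 0, ?_⟩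
  have h1 : x ^ (P.rootMultiplicity 0) * (1 - x * Polynomial.aeval x u) =
      Polynomial.aeval x (P * v) := by
    have h2 : P * v = Polynomial.X ^ (P.rootMultiplicity 0) * (1 - Polynomial.X * u) := by
      have h3 : (1 : Polynomial ℚ) - Polynomial.X * u = v * Q := by
        rw [← huv]
        ring
      rw [h3]
      nth_rewrite 1 [hQ]
      ring
    rw [h2]
    simp
  rw [h1, map_mul, hPx, zero_mul]

end Pool.Agent.H14.CB
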